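import Pool.Agent.Helper88.GP.Big

set_option autoImplicit false

/-!
# GQ-Spread3: good permutations, sets without large balls: sums alone, sharp constant
-/

open Finset Pool.Agent.Helper88.GP

namespace Pool.Agent.Helper88.GQ

variable {X : Type*} [DecidableEq X] {P : Finset ℕ}

omit [DecidableEq X] in
theorem ham_comm3 (e : X → P → ℕ) (x y : X) : ham e x y = ham e y x := by
  unfold ham
  congr 1
  ext q
  simp only [mem_filter, mem_univ, true_and]
  exact ne_comm

theorem pair_count3 (e : X → P → ℕ) (B : Finset X) (k d m : ℕ)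
    (hball : ∀ a ∈ B, (B.filter fun b => ham e a b ≤ d).card ≤ m)
    {i j : Fin k} (hij : i ≠ j) :
    B.card * ((Fintype.piFinset fun _ : Fin k => B).filter
      (fun u : Fin k → X => ham e (u i) (u j) ≤ d)).card ≤ m * B.card ^ k := by
  classical
  rcases B.eq_empty_or_nonempty with hB | ⟨x0, hx0⟩
  · rw [hB]; simp
  set S := (Fintype.piFinset fun _ : Fin k => B).filter
      (fun u : Fin k → X => ham e (u i) (u j) ≤ d) with hS
  set T := Fintype.piFinset (fun l : Fin k => if l = j then ({x0} : Finset X) else B) with hT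
  have hmap : ∀ u ∈ S, Function.update u j x0 ∈ T := by
    intro u hu
    rw [hS, mem_filter, Fintype.mem_piFinset] at hu
    rw [hT, Fintype.mem_piFinset]
    intro l
    by_cases hl : l = j
    · subst hl; simp
    · rw [if_neg hl, Function.update_of_ne hl]; exact hu.1 l
  have hTc : B.card * T.card = B.card ^ k := by
    rw [hT, Fintype.card_piFinset, ← Finset.mul_prod_erase univ _ (mem_univ j)]
    have h1 : B.card ^ k = ∏ _l : Fin k, B.card := by simp
    rw [h1, ← Finset.mul_prod_erase univ (fun _ : Fin k => B.card) (mem_univ j)]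
    rw [if_pos rfl, card_singleton, one_mul]
    congr 1
    refine Finset.prod_congr rfl fun l hl => ?_
    rw [if_neg (Finset.ne_of_mem_erase hl)]
  have hfib : ∀ w ∈ T, (S.filter fun u => Function.update u j x0 = w).card ≤ m := by
    intro w hw
    rw [hT, Fintype.mem_piFinset] at hw
    have hwi : w i ∈ B := by
      have := hw i
      rwa [if_neg hij] at this
    refine le_trans ?_ (hball (w i) hwi)
    refine Finset.card_le_card_of_injOn (fun u => u j) ?_ ?_
    · intro u hu
      rw [Finset.mem_coe, mem_filter, hS, mem_filter, Fintype.mem_piFinset] at hu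
      rw [Finset.mem_coe, mem_filter]
      have h1 : w i = u i := by rw [← hu.2, Function.update_of_ne hij]
      exact ⟨hu.1.1 j, by rw [h1]; exact hu.1.2⟩
    · intro u hu v hv huv
      rw [Finset.mem_coe, mem_filter] at hu hv
      funext l
      by_cases hl : l = j
      · rw [hl]; exact huv
      · have h1 := congrFun (hu.2.trans hv.2.symm) l
        rwa [Function.update_of_ne hl, Function.update_of_ne hl] at h1
  have hsum : S.card = ∑ w ∈ T, (S.filter fun u => Function.update u j x0 = w).card :=
    Finset.card_eq_sum_card_fiberwise hmap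
  calc B.card * S.card ≤ B.card * (T.card * m) := by
        refine Nat.mul_le_mul_left _ ?_
        rw [hsum]
        calc ∑ w ∈ T, (S.filter fun u => Function.update u j x0 = w).card
            ≤ ∑ _w ∈ T, m := Finset.sum_le_sum hfib
          _ = T.card * m := by rw [Finset.sum_const, smul_eq_mul]
    _ = (B.card * T.card) * m := by ring
    _ = m * B.card ^ k := by rw [hTc]; ring

theorem pairs_card3 (k : ℕ) :
    2 * ((univ : Finset (Fin k × Fin k)).filter fun p => p.1 < p.2).card ≤ k ^ 2 := by
  classical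
  set A := (univ : Finset (Fin k × Fin k)).filter fun p => p.1 < p.2 with hA
  set A' := A.image Prod.swap with hA'
  have hc : A'.card = A.card := Finset.card_image_of_injective _ Prod.swap_injective
  have hd : Disjoint A A' := by
    rw [Finset.disjoint_left]
    intro p hp hp'
    rw [hA', mem_image] at hp'
    obtain ⟨q, hq, rfl⟩ := hp'
    rw [hA, mem_filter] at hq hp
    exact lt_asymm hq.2 hp.2
  have h1 : (A ∪ A').card ≤ (univ : Finset (Fin k × Fin k)).card := Finset.card_le_univ _
  rw [Finset.card_union_of_disjoint hd, hc] at h1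
  have h2 : (univ : Finset (Fin k × Fin k)).card = k ^ 2 := by
    rw [Finset.card_univ, Fintype.card_prod, Fintype.card_fin]; ring
  omega

theorem far_card3 (e : X → P → ℕ) (B : Finset X) (k d m : ℕ)
    (hball : ∀ a ∈ B, (B.filter fun b => ham e a b ≤ d).card ≤ m) :
    2 * B.card * B.card ^ k ≤ 2 * B.card * ((Fintype.piFinset fun _ : Fin k => B).filter
      (fun u : Fin k → X => ∀ i j, i ≠ j → d < ham e (u i) (u j))).card +
      k ^ 2 * m * B.card ^ k := by
  classical
  set U := (Fintype.piFinset fun _ : Fin k => B) with hU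
  set p : (Fin k → X) → Prop := fun u => ∀ i j, i ≠ j → d < ham e (u i) (u j) with hp
  set A := (univ : Finset (Fin k × Fin k)).filter fun q => q.1 < q.2 with hA
  have hUc : U.card = B.card ^ k := by
    rw [hU, Fintype.card_piFinset]; simp
  have hsplit : (U.filter p).card + (U.filter fun u => ¬ p u).card = U.card :=
    Finset.card_filter_add_card_filter_not (s := U) p
  have hsub : (U.filter fun u => ¬ p u) ⊆
      A.biUnion fun q => U.filter fun u : Fin k → X => ham e (u q.1) (u q.2) ≤ d := by
    intro u hu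
    rw [mem_filter] at hu
    obtain ⟨hu1, hu2⟩ := hu
    rw [hp] at hu2
    push Not at hu2
    obtain ⟨i, j, hij, hle⟩ := hu2
    rw [mem_biUnion]
    rcases lt_or_gt_of_ne hij with h | h
    · exact ⟨(i, j), by rw [hA, mem_filter]; exact ⟨mem_univ _, h⟩, by
        rw [mem_filter]; exact ⟨hu1, hle⟩⟩
    · exact ⟨(j, i), by rw [hA, mem_filter]; exact ⟨mem_univ _, h⟩, by
        rw [mem_filter]; exact ⟨hu1, by rw [ham_comm3]; exact hle⟩⟩
  have hbad : B.card * (U.filter fun u => ¬ p u).card ≤ A.card * (m * B.card ^ k) := by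
    calc B.card * (U.filter fun u => ¬ p u).card
        ≤ B.card * ∑ q ∈ A, (U.filter fun u : Fin k → X => ham e (u q.1) (u q.2) ≤ d).card :=
          Nat.mul_le_mul_left _ ((card_le_card hsub).trans card_biUnion_le)
      _ = ∑ q ∈ A, B.card * (U.filter fun u : Fin k → X => ham e (u q.1) (u q.2) ≤ d).card := by
          rw [mul_sum]
      _ ≤ ∑ _q ∈ A, m * B.card ^ k := by
          refine Finset.sum_le_sum fun q hq => ?_
          exact pair_count3 e B k d m hball (ne_of_lt (mem_filter.1 hq).2)
      _ = A.card * (m * B.card ^ k) := by rw [Finset.sum_const, smul_eq_mul]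
  have h2 := pairs_card3 k
  rw [← hA] at h2
  have h3 : 2 * (A.card * (m * B.card ^ k)) ≤ k ^ 2 * m * B.card ^ k := by
    calc 2 * (A.card * (m * B.card ^ k)) = (2 * A.card) * (m * B.card ^ k) := by ring
      _ ≤ k ^ 2 * (m * B.card ^ k) := Nat.mul_le_mul_right _ h2
      _ = k ^ 2 * m * B.card ^ k := by ring
  calc 2 * B.card * B.card ^ k = 2 * B.card * U.card := by rw [hUc]
    _ = 2 * B.card * (U.filter p).card + 2 * (B.card * (U.filter fun u => ¬ p u).card) := by
        rw [← hsplit]; ring
    _ ≤ 2 * B.card * (U.filter p).card + k ^ 2 * m * B.card ^ k := by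
        have := Nat.mul_le_mul_left 2 hbad
        omega

theorem sums_of_spread3 (k d m : ℕ) (hp : ∀ q ∈ P, q.Prime) (s : X → ℤ) (e : X → P → ℕ)
    (A : Finset X) (hs : ∀ x ∈ A, |s x| = 1)
    (hinj : ∀ x ∈ A, ∀ y ∈ A, s x = s y → e x = e y → x = y)
    (π : Equiv.Perm P) (hg : Good s e A k d π) (B : Finset X) (hBA : B ⊆ A) (hB : B.Nonempty)
    (hball : ∀ a ∈ B, (B.filter fun b => ham e a b ≤ d).card ≤ m) :
    (1 - (k : ℝ) ^ 2 * m / (2 * B.card)) * (B.card : ℝ) ^ k ≤ (k.factorial : ℝ) *
      (((Fintype.piFinset (fun _ : Fin k => B.image (val s e π))).image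
        (fun f : Fin k → ℤ => ∑ i, f i)).card : ℝ) := by
  have h0 : ∀ x ∈ A, val s e π x ≠ 0 := fun x hx => val_ne_zero hp s e π x (hs x hx)
  have hvi : ∀ x ∈ A, ∀ y ∈ A, val s e π x = val s e π y → x = y := fun x hx y hy h =>
    hinj x hx y hy (val_inj hp s e π x y (hs x hx) (hs y hy) h).1
      (val_inj hp s e π x y (hs x hx) (hs y hy) h).2
  have h1 := far_card3 e B k d m hball
  set F := (Fintype.piFinset fun _ : Fin k => B).filter
    (fun u : Fin k → X => ∀ i j, i ≠ j → d < ham e (u i) (u j)) with hFdef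
  have hmem : ∀ u ∈ F, (∀ i, u i ∈ B) ∧ ∀ i j, i ≠ j → d < ham e (u i) (u j) := by
    intro u hu
    rw [hFdef, mem_filter, Fintype.mem_piFinset] at hu
    exact hu
  have h2 := sums_card k F (val s e π) (fun u hu i j hij => by
    by_contra hne
    have := (hmem u hu).2 i j hne
    rw [hij] at this
    simp [ham] at this) (fun u hu v hv h =>
      far_inj s e A k d π hg h0 hvi u v (fun i => hBA ((hmem u hu).1 i))
        (fun i => hBA ((hmem v hv).1 i)) (hmem u hu).2 (hmem v hv).2 h)
  have h3 : F.image (fun u => ∑ i, val s e π (u i)) ⊆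
      (Fintype.piFinset (fun _ : Fin k => B.image (val s e π))).image
        (fun f : Fin k → ℤ => ∑ i, f i) := by
    intro z hz
    obtain ⟨u, hu, rfl⟩ := mem_image.1 hz
    refine mem_image.2 ⟨fun i => val s e π (u i), ?_, rfl⟩
    rw [Fintype.mem_piFinset]
    exact fun i => mem_image_of_mem _ ((hmem u hu).1 i)
  have h4 : (F.card : ℝ) ≤ (k.factorial : ℝ) *
      (((Fintype.piFinset (fun _ : Fin k => B.image (val s e π))).image
        (fun f : Fin k → ℤ => ∑ i, f i)).card : ℝ) := by
    exact_mod_cast h2.trans (Nat.mul_le_mul_left _ (card_le_card h3))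
  refine le_trans ?_ h4
  have hN : (0 : ℝ) < B.card := by exact_mod_cast card_pos.2 hB
  have h5 : 2 * (B.card : ℝ) * (B.card : ℝ) ^ k ≤ 2 * B.card * F.card +
      (k : ℝ) ^ 2 * m * (B.card : ℝ) ^ k := by exact_mod_cast h1
  have h6 : (1 - (k : ℝ) ^ 2 * m / (2 * B.card)) * (B.card : ℝ) ^ k * (2 * B.card) ≤
      F.card * (2 * B.card) := by
    have h7 : (1 - (k : ℝ) ^ 2 * m / (2 * B.card)) * (B.card : ℝ) ^ k * (2 * B.card) =
        2 * (B.card : ℝ) * (B.card : ℝ) ^ k - (k : ℝ) ^ 2 * m * (B.card : ℝ) ^ k := by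
      field_simp
    rw [h7]
    linarith
  exact le_of_mul_le_mul_right h6 (by positivity)

end Pool.Agent.Helper88.GQ
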