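import Pool.Agent.Helper88.GQ.Main3
import Pool.Agent.Helper88.GQ.Spread3

set_option autoImplicit false

/-!
# GQ-Main4: assembly with the sharp clause on sums (owner: helper88)
-/

open Finset Pool.Agent.Helper88.GP

namespace Pool.Agent.Helper88.GQ

theorem gq4 (k : ℕ) (hk : 1 ≤ k) (ε : ℝ) (hε : 0 < ε) (hfew : ∃ c : ℝ, 0 < c ∧ FewH k ε c) :
    ∃ c : ℝ, 0 < c ∧ ∀ (y : ℕ) (P : Finset ℕ), (∀ q ∈ P, q.Prime ∧ q ≤ y) →
      ∀ (L : ℕ) (θ : ℝ), 0 < θ → θ ≤ c →
      (L : ℝ) * Real.log y ≤ θ * (P.card * Real.log P.card) →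
      ∀ A : Finset ℤ, (0 : ℤ) ∉ A →
        (∀ a ∈ A, ∀ b ∈ A, ((a : ℚ) / b).num.natAbs.primeFactors ⊆ P ∧
          ((a : ℚ) / b).num.natAbs.primeFactorsList.length ≤ L) →
        ∀ b : ℝ, 1 ≤ b →
          (Nat.card {π : Equiv.Perm P // ∃ B ⊆ A, b ≤ B.card ∧
            (mx k (B.image (act P π)) < c * (B.card : ℝ) ^ ((k : ℝ) - ε) ∨
            ∃ m : ℕ, (∀ g ∈ B, (B.filter fun x =>
                ((P.filter fun p => padicValInt p x ≠ padicValInt p g).card : ℝ) ≤
                  Real.log b).card ≤ m) ∧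
              (k.factorial : ℝ) * sm k (B.image (act P π)) <
                (1 - (k : ℝ) ^ 2 * m / (2 * B.card)) * (B.card : ℝ) ^ k)} : ℝ) ≤
          (A.card : ℝ) ^ (2 * k) * θ ^ (c * Real.log b) * (P.card.factorial : ℝ) := by
  classical
  obtain ⟨c₁', hc₁', hF'⟩ := hfew
  obtain ⟨c₁, hc₁, hc₁1, hF⟩ : ∃ c₁ : ℝ, 0 < c₁ ∧ c₁ ≤ 1 ∧ FewH k ε c₁ :=
    ⟨min c₁' 1, lt_min hc₁' one_pos, min_le_right _ _, fewH_mono (min_le_left _ _) hF'⟩
  obtain ⟨c₀, hc₀, hc₀4, hc₀2, hpar⟩ := params2 k c₁ hc₁
  have hk0 : (0 : ℝ) < k := by exact_mod_cast hk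
  set c₃ : ℝ := min (1 / (2 * (k.factorial : ℝ)))
    (min (c₁ / (k : ℝ) ^ (2 * k)) (1 / (k : ℝ) ^ (4 * k))) with hc₃
  have hc₃0 : 0 < c₃ := by
    rw [hc₃]
    have : (0 : ℝ) < k.factorial := by exact_mod_cast k.factorial_pos
    exact lt_min (by positivity) (lt_min (by positivity) (by positivity))
  refine ⟨min c₀ (min c₃ (1 / 2 ^ k)), lt_min hc₀ (lt_min hc₃0 (by positivity)), ?_⟩
  set c : ℝ := min c₀ (min c₃ (1 / 2 ^ k)) with hc
  have hcc₀ : c ≤ c₀ := min_le_left _ _
  have hcc₃ : c ≤ c₃ := (min_le_right _ _).trans (min_le_left _ _)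
  have hccs : c ≤ 1 / 2 ^ k := (min_le_right _ _).trans (min_le_right _ _)
  clear_value c c₃
  intro y P hP L θ hθ hθc hLy A h0 hA b hb
  have hpP : ∀ q ∈ P, q.Prime := fun q hq => (hP q hq).1
  have hne : ∀ a ∈ A, a ≠ 0 := fun a ha h => h0 (h ▸ ha)
  have hθ1 : θ ≤ 1 := by linarith
  have hlogb0 : 0 ≤ Real.log b := Real.log_nonneg hb
  have hRHS : (0 : ℝ) ≤ (A.card : ℝ) ^ (2 * k) * θ ^ (c * Real.log b) * (P.card.factorial : ℝ) := by
    positivity
  have hout : ∀ a ∈ A, ∀ b ∈ A, out P a = out P b := fun a ha b hb =>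
    out_eq P a b (hne a ha) (hne b hb) (hA a ha b hb).1 (hA b hb a ha).1
  have hsgn : ∀ x ∈ A, |Int.sign x| = 1 := by
    intro x hx
    rcases lt_or_gt_of_ne (hne x hx) with h | h
    · rw [Int.sign_eq_neg_one_of_neg h]; rfl
    · rw [Int.sign_eq_one_of_pos h]; rfl
  have hinj : ∀ x ∈ A, ∀ y ∈ A, Int.sign x = Int.sign y → ex P x = ex P y → x = y :=
    fun x hx y hy hs he => inj2 P hpP x y (hne x hx) (hne y hy) (hout x hx y hy) hs he
  have hactinj : ∀ π : Equiv.Perm P, ∀ x ∈ A, ∀ y ∈ A, act P π x = act P π y → x = y := by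
    intro π x hx y hy h
    rw [act_eq P hpP, act_eq P hpP, hout x hx y hy, rel_eq_val, rel_eq_val] at h
    have h1 := mul_left_cancel₀ (out_ne_zero P y) h
    have h2 := val_inj hpP Int.sign (ex P) π x y (hsgn x hx) (hsgn y hy) h1
    exact hinj x hx y hy h2.1 h2.2
  -- a bad set has at least three elements
  have hthree : ∀ (π : Equiv.Perm P) (B : Finset ℤ), B ⊆ A → b ≤ B.card →
      (mx k (B.image (act P π)) < c * (B.card : ℝ) ^ ((k : ℝ) - ε) ∨
            ∃ m : ℕ, (∀ g ∈ B, (B.filter fun x =>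
                ((P.filter fun p => padicValInt p x ≠ padicValInt p g).card : ℝ) ≤
                  Real.log b).card ≤ m) ∧
              (k.factorial : ℝ) * sm k (B.image (act P π)) <
                (1 - (k : ℝ) ^ 2 * m / (2 * B.card)) * (B.card : ℝ) ^ k) → 3 ≤ B.card := by
    intro π B hBA hbB hor
    by_contra hB2
    have hB1 : 1 ≤ B.card := by
      have : (1 : ℝ) ≤ B.card := hb.trans hbB
      exact_mod_cast this
    have hBne : B.Nonempty := card_pos.1 (by omega : 0 < B.card)
    rcases hor with hlt | ⟨m, hsp, hlt⟩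
    · have h3 := small_sets (k := k) hε hccs (A := B.image (act P π))
        (hBne.image _) (by omega : B.card ≤ 2) hB1
      linarith
    · obtain ⟨g, hg⟩ := hBne
      have h4 := hsp g hg
      have h5 : 1 ≤ (B.filter fun x =>
                ((P.filter fun p => padicValInt p x ≠ padicValInt p g).card : ℝ) ≤
                  Real.log b).card := by
        rw [Nat.one_le_iff_ne_zero, Ne, card_eq_zero]
        refine Nonempty.ne_empty ⟨g, mem_filter.2 ⟨hg, ?_⟩⟩
        simpa using hlogb0
      have hm1 : (1 : ℝ) ≤ m := by exact_mod_cast h5.trans h4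
      have hBr1 : (1 : ℝ) ≤ B.card := by exact_mod_cast hB1
      have hBr2 : (B.card : ℝ) ≤ 2 := by exact_mod_cast (by omega : B.card ≤ 2)
      have hk1 : k = 1 := by
        by_contra hk1
        have hk2 : (2 : ℝ) ≤ k := by exact_mod_cast (by omega : 2 ≤ k)
        have h8 : 1 ≤ (k : ℝ) ^ 2 * m / (2 * B.card) := by
          rw [le_div_iff₀ (by positivity)]
          have : (4 : ℝ) ≤ (k : ℝ) ^ 2 := by nlinarith
          nlinarith
        have h9 : (1 - (k : ℝ) ^ 2 * m / (2 * B.card)) * (B.card : ℝ) ^ k ≤ 0 :=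
          mul_nonpos_of_nonpos_of_nonneg (by linarith) (by positivity)
        have h10 : (0 : ℝ) ≤ (k.factorial : ℝ) * sm k (B.image (act P π)) := by positivity
        linarith
      subst hk1
      have h7 : sm 1 (B.image (act P π)) = B.card := by
        unfold sm
        rw [← card_image_of_injOn (s := B) (f := act P π)
          (fun x hx y hy h => hactinj π x (hBA hx) y (hBA hy) h)]
        refine card_nbij' (fun z => z) (fun z => z) ?_ ?_ ?_ ?_
        · intro z hz
          simp only [coe_image, Set.mem_image, mem_coe, Fintype.mem_piFinset] at hz ⊢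
          obtain ⟨f, hf, rfl⟩ := hz
          simpa using hf 0
        · intro z hz
          simp only [coe_image, Set.mem_image, mem_coe, Fintype.mem_piFinset] at hz ⊢
          obtain ⟨x, hx, rfl⟩ := hz
          exact ⟨fun _ => act P π x, fun _ => mem_image_of_mem _ hx, by simp⟩
        · intro z _; rfl
        · intro z _; rfl
      rw [h7] at hlt
      have h8 : (0 : ℝ) ≤ ((1 : ℕ) : ℝ) ^ 2 * m / (2 * B.card) := by positivity
      simp only [Nat.factorial_one, pow_one, Nat.cast_one, one_mul] at hlt h8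
      nlinarith
  by_cases hcard : A.card ≤ 2
  · have hempty : IsEmpty {π : Equiv.Perm P // ∃ B ⊆ A, b ≤ B.card ∧
            (mx k (B.image (act P π)) < c * (B.card : ℝ) ^ ((k : ℝ) - ε) ∨
            ∃ m : ℕ, (∀ g ∈ B, (B.filter fun x =>
                ((P.filter fun p => padicValInt p x ≠ padicValInt p g).card : ℝ) ≤
                  Real.log b).card ≤ m) ∧
              (k.factorial : ℝ) * sm k (B.image (act P π)) <
                (1 - (k : ℝ) ^ 2 * m / (2 * B.card)) * (B.card : ℝ) ^ k)} := by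
      refine ⟨fun ⟨π, B, hBA, hBb, hor⟩ => ?_⟩
      have h3 := hthree π B hBA hBb hor
      have h4 := card_le_card hBA
      omega
    rw [Nat.card_eq_zero.2 (Or.inl hempty)]
    simpa using hRHS
  rw [not_le] at hcard
  have hpair : ∀ x ∈ A, ∀ z ∈ A, ∑ q, (ex P x q - ex P z q) ≤ L := fun x hx z hz =>
    (ex_pair P hpP x z (hne x hx) (hne z hz)).trans (hA x hx z hz).2
  have hL1 : 1 ≤ L := by
    by_contra hL0
    have hL0' : L = 0 := by omega
    have hle : ∀ x ∈ A, ∀ z ∈ A, ∀ q, ex P x q ≤ ex P z q := by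
      intro x hx z hz q
      have h1 := hpair x hx z hz
      rw [hL0', Nat.le_zero, sum_eq_zero_iff] at h1
      have := h1 q (mem_univ q)
      omega
    have := card_le_two P hpP A h0 hout fun a ha b hb =>
      funext fun q => le_antisymm (hle a ha b hb q) (hle b hb a ha q)
    omega
  have hPne : P.Nonempty := by
    by_contra hP0
    rw [not_nonempty_iff_eq_empty] at hP0
    subst hP0
    have := card_le_two ∅ hpP A h0 hout fun a _ b _ => funext fun q => absurd q.2 (notMem_empty _)
    omega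
  have hy2 : 2 ≤ y := by
    obtain ⟨q, hq⟩ := hPne
    exact (hP q hq).1.two_le.trans (hP q hq).2
  have hny : P.card ≤ y := by
    have h1 : P ⊆ Icc 1 y := fun q hq => mem_Icc.2 ⟨(hP q hq).1.one_le, (hP q hq).2⟩
    simpa using card_le_card h1
  obtain ⟨M, ρ, hρ, hρ1, hyM, h16, h2k, hW, hN⟩ := hpar P.card y L θ hny hy2 hL1 hθ
    (hθc.trans hcc₀) hLy
  -- the threshold may be taken to be at least `e`
  set b' : ℝ := max b (Real.exp 1) with hb'
  have hb'1 : 1 ≤ Real.log b' := by
    rw [Real.le_log_iff_exp_le (lt_of_lt_of_le (Real.exp_pos 1) (le_max_right _ _))]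
    exact le_max_right _ _
  have hN' := hN b' hb'1
  set d : ℕ := ⌊c₁ / 2 * Real.log b'⌋₊ with hd
  -- `d ≤ log b`
  have hdb : (d : ℝ) ≤ Real.log b := by
    rcases le_total b (Real.exp 1) with h | h
    · have h1 : b' = Real.exp 1 := max_eq_right h
      have h2 : d = 0 := by
        rw [hd, h1, Real.log_exp, Nat.floor_eq_zero]
        linarith
      rw [h2]
      simpa using hlogb0
    · have h1 : b' = b := max_eq_left h
      have h2 : (d : ℝ) ≤ c₁ / 2 * Real.log b := by
        rw [hd, h1]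
        exact Nat.floor_le (by positivity)
      refine h2.trans ?_
      nlinarith
  have hcount := good_count2 k M L d hk hpP (fun q hq => (hP q hq).2.trans hyM) h16 h2k Int.sign
    (ex P) A (fun x hx => (hsgn x hx).le) hpair ρ hρ hρ1 hW
  obtain ⟨a₀, ha₀⟩ : A.Nonempty := card_pos.1 (by omega)
  -- bad permutations are not good
  have hbad : (Nat.card {π : Equiv.Perm P // ∃ B ⊆ A, b ≤ B.card ∧
            (mx k (B.image (act P π)) < c * (B.card : ℝ) ^ ((k : ℝ) - ε) ∨
            ∃ m : ℕ, (∀ g ∈ B, (B.filter fun x =>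
                ((P.filter fun p => padicValInt p x ≠ padicValInt p g).card : ℝ) ≤
                  Real.log b).card ≤ m) ∧
              (k.factorial : ℝ) * sm k (B.image (act P π)) <
                (1 - (k : ℝ) ^ 2 * m / (2 * B.card)) * (B.card : ℝ) ^ k)} : ℝ) ≤
      ((univ.filter fun π : Equiv.Perm P => ¬ Good Int.sign (ex P) A k d π).card : ℝ) := by
    rw [Nat.card_eq_fintype_card, Fintype.card_subtype]
    have : (univ.filter fun π : Equiv.Perm P => ∃ B ⊆ A, b ≤ B.card ∧
            (mx k (B.image (act P π)) < c * (B.card : ℝ) ^ ((k : ℝ) - ε) ∨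
            ∃ m : ℕ, (∀ g ∈ B, (B.filter fun x =>
                ((P.filter fun p => padicValInt p x ≠ padicValInt p g).card : ℝ) ≤
                  Real.log b).card ≤ m) ∧
              (k.factorial : ℝ) * sm k (B.image (act P π)) <
                (1 - (k : ℝ) ^ 2 * m / (2 * B.card)) * (B.card : ℝ) ^ k)) ⊆
        (univ.filter fun π : Equiv.Perm P => ¬ Good Int.sign (ex P) A k d π) := by
      intro π hπ
      simp only [mem_filter, mem_univ, true_and] at hπ ⊢
      obtain ⟨B, hBA, hBb, hor⟩ := hπ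
      intro hgood
      have hB3 := hthree π B hBA hBb hor
      have hB : B.Nonempty := card_pos.1 (by omega)
      have hBpos : (0 : ℝ) < B.card := by exact_mod_cast card_pos.2 hB
      have himg : B.image (act P π) =
          (B.image (val Int.sign (ex P) π)).image (fun x => out P a₀ * x) := by
        rw [image_image]
        refine image_congr fun x hx => ?_
        rw [act_eq P hpP, Function.comp_apply, hout x (hBA hx) a₀ ha₀, rel_eq_val]
      rcases hor with hlt | ⟨m, hsp, hlt⟩
      · have hb'B : b' ≤ B.card := by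
          refine max_le hBb ?_
          have h3 : (3 : ℝ) ≤ B.card := by exact_mod_cast hB3
          have := Real.exp_one_lt_d9
          linarith
        have hb'0 : 0 < b' := lt_of_lt_of_le (Real.exp_pos 1) (le_max_right _ _)
        have hdle : (d : ℝ) ≤ c₁ / 2 * Real.log B.card := by
          have h1 : (d : ℝ) ≤ c₁ / 2 * Real.log b' := Nat.floor_le (by positivity)
          exact h1.trans (mul_le_mul_of_nonneg_left (Real.log_le_log hb'0 hb'B) (by positivity))
        have hmain := big_of_good k d hk ε c₁ hε hc₁ hF hpP Int.sign (ex P) A hsgn hinj π hgood B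
          hBA hB hdle
        rw [himg, mx_mul k _ (out_ne_zero P a₀)] at hlt
        rw [← hc₃] at hmain
        have h4 : c * (B.card : ℝ) ^ ((k : ℝ) - ε) ≤ c₃ * (B.card : ℝ) ^ ((k : ℝ) - ε) :=
          mul_le_mul_of_nonneg_right hcc₃ (Real.rpow_nonneg hBpos.le _)
        linarith
      · have hball : ∀ a ∈ B, (B.filter fun b => ham (ex P) a b ≤ d).card ≤ m := by
          intro a ha
          refine le_trans (card_le_card ?_) (hsp a ha)
          intro x hx
          rw [mem_filter] at hx ⊢
          refine ⟨hx.1, ?_⟩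
          have h1 : ham (ex P) x a ≤ d := by
            rw [ham_comm3]; exact hx.2
          rw [ham_ex] at h1
          exact le_trans (by exact_mod_cast h1) hdb
        have h5 := sums_of_spread3 k d m hpP Int.sign (ex P) A hsgn hinj π hgood B hBA hB hball
        have h6 : sm k (B.image (act P π)) =
            ((Fintype.piFinset (fun _ : Fin k => B.image (val Int.sign (ex P) π))).image
              (fun f : Fin k → ℤ => ∑ i, f i)).card := by
          unfold sm
          rw [himg]
          exact sum_mul k _ (out_ne_zero P a₀) _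
        rw [h6] at hlt
        linarith
    exact_mod_cast card_le_card this
  have hfac : (0 : ℝ) ≤ (P.card.factorial : ℝ) := by positivity
  have hlogb : Real.log b ≤ Real.log b' := Real.log_le_log (by linarith) (le_max_left _ _)
  have hc0 : 0 < c := lt_of_lt_of_le hθ hθc
  have hexp : θ ^ (c₀ * Real.log b') ≤ θ ^ (c * Real.log b) := by
    refine Real.rpow_le_rpow_of_exponent_ge hθ hθ1 ?_
    exact mul_le_mul hcc₀ hlogb hlogb0 hc₀.le
  calc _ ≤ ((univ.filter fun π : Equiv.Perm P => ¬ Good Int.sign (ex P) A k d π).card : ℝ) := hbad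
    _ ≤ (A.card : ℝ) ^ (2 * k) * 4 ^ k * ρ ^ (((d : ℝ) + 1) / 4 ^ k) *
        (P.card.factorial : ℝ) := hcount
    _ = (A.card : ℝ) ^ (2 * k) * (4 ^ k * ρ ^ (((d : ℝ) + 1) / 4 ^ k)) *
        (P.card.factorial : ℝ) := by ring
    _ ≤ (A.card : ℝ) ^ (2 * k) * θ ^ (c * Real.log b) * (P.card.factorial : ℝ) := by
        refine mul_le_mul_of_nonneg_right ?_ hfac
        exact mul_le_mul_of_nonneg_left (hN'.trans hexp) (by positivity)

end Pool.Agent.Helper88.GQ
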