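import Pool.Agent.Helper88.GP.Int

set_option autoImplicit false

/-!
# GQ-Int: the action of a permutation of `P` on the non-zero integers

`ex P a q = v_q(a)` (`GP.Int`), `rel P π a = sign a * ∏ q : P, (π q) ^ v_q(a)`. `out P a` is the part
of `|a|` composed of the primes outside `P`.

* `ex_pair`: for `a, b ≠ 0` and a prime `q`, `v_q(num (a / b)) = v_q(a) - v_q(b)` (natural
  subtraction), and the sum of the valuations of `num (a / b)` over the primes of `P` is at most the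
  number of its prime factors, i.e. `ex_sum` of `GP.Int` applied to `num (a / b)`.
* `out_eq`: for `p ∉ P`, `v_p(a) = v_p(b)` (both numerators have no prime outside `P`).
* `sign_ex_out`: factorisation.
* `act_eq`: split the product over the primes of `|a|` into those in `P` and those outside.
-/

open Finset Pool.Agent.Helper88.GP

namespace Pool.Agent.Helper88.GQ

/-- the integer `a` with its prime factors in `P` permuted by `π` (the others are kept) -/
def act (P : Finset ℕ) (π : Equiv.Perm P) (a : ℤ) : ℤ :=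
  a.sign * ∏ p ∈ a.natAbs.primeFactors,
    ((if h : p ∈ P then (π ⟨p, h⟩ : ℕ) else p : ℕ) : ℤ) ^ padicValNat p a.natAbs

/-- the part of `|a|` composed of the primes outside `P` -/
def out (P : Finset ℕ) (a : ℤ) : ℤ :=
  ∏ p ∈ a.natAbs.primeFactors.filter (fun p => p ∉ P), (p : ℤ) ^ padicValNat p a.natAbs

theorem out_ne_zero (P : Finset ℕ) (a : ℤ) : out P a ≠ 0 := by
  unfold out
  rw [prod_ne_zero_iff]
  intro p hp
  have := (Nat.prime_of_mem_primeFactors (mem_filter.1 hp).1).ne_zero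
  exact pow_ne_zero _ (by exact_mod_cast this)

theorem act_eq (P : Finset ℕ) (hp : ∀ q ∈ P, q.Prime) (π : Equiv.Perm P) (a : ℤ) :
    act P π a = out P a * rel P π a := by
  rcases eq_or_ne a 0 with rfl | ha
  · simp [act, rel]
  unfold act out rel
  rw [← prod_filter_mul_prod_filter_not a.natAbs.primeFactors (fun p => p ∈ P)]
  have h1 : ∏ p ∈ a.natAbs.primeFactors.filter (fun p => p ∉ P),
      ((if h : p ∈ P then (π ⟨p, h⟩ : ℕ) else p : ℕ) : ℤ) ^ padicValNat p a.natAbs =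
      ∏ p ∈ a.natAbs.primeFactors.filter (fun p => p ∉ P), (p : ℤ) ^ padicValNat p a.natAbs := by
    refine prod_congr rfl fun p hpm => ?_
    rw [dif_neg (mem_filter.1 hpm).2]
  have h2 : ∏ p ∈ a.natAbs.primeFactors.filter (fun p => p ∈ P),
      ((if h : p ∈ P then (π ⟨p, h⟩ : ℕ) else p : ℕ) : ℤ) ^ padicValNat p a.natAbs =
      ∏ q : P, ((π q : ℕ) : ℤ) ^ padicValNat (q : ℕ) a.natAbs := by
    rw [← prod_filter_mul_prod_filter_not (univ : Finset P) (fun q => (q : ℕ) ∈ a.natAbs.primeFactors)]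
    have h3 : ∏ q ∈ univ.filter (fun q : P => ¬ (q : ℕ) ∈ a.natAbs.primeFactors),
        ((π q : ℕ) : ℤ) ^ padicValNat (q : ℕ) a.natAbs = 1 := by
      refine prod_eq_one fun q hq => ?_
      have hq' := (mem_filter.1 hq).2
      have : ¬ (q : ℕ) ∣ a.natAbs := fun hd => hq' (Nat.mem_primeFactors.2
        ⟨hp q q.2, hd, Int.natAbs_ne_zero.2 ha⟩)
      rw [padicValNat.eq_zero_of_not_dvd this, pow_zero]
    rw [h3, mul_one]
    refine prod_bij' (fun p hpm => ⟨p, (mem_filter.1 hpm).2⟩) (fun q _ => (q : ℕ)) ?_ ?_ ?_ ?_ ?_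
    · intro p hpm; simpa using (mem_filter.1 hpm).1
    · intro q hq; exact mem_filter.2 ⟨(mem_filter.1 hq).2, q.2⟩
    · intro p hpm; rfl
    · intro q hq; rfl
    · intro p hpm; rw [dif_pos (mem_filter.1 hpm).2]
  rw [h1, h2]
  ring

private theorem int2B_num_mul (a b : ℤ) (hb : b ≠ 0) :
    ((a : ℚ) / b).num.natAbs * b.natAbs = a.natAbs * ((a : ℚ) / b).den := by
  have hbq : (b : ℚ) ≠ 0 := Int.cast_ne_zero.2 hb
  have hd : (((a : ℚ) / b).den : ℚ) ≠ 0 := Nat.cast_ne_zero.2 (Rat.den_nz _)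
  have h1 : ((((a : ℚ) / b).num : ℚ)) / (((a : ℚ) / b).den : ℚ) = (a : ℚ) / b :=
    Rat.num_div_den _
  rw [div_eq_div_iff hd hbq] at h1
  have h2 : ((a : ℚ) / b).num * b = a * (((a : ℚ) / b).den : ℤ) := by exact_mod_cast h1
  have h3 := congrArg Int.natAbs h2
  rwa [Int.natAbs_mul, Int.natAbs_mul, Int.natAbs_natCast] at h3

private theorem int2B_num_ne (a b : ℤ) (ha : a ≠ 0) (hb : b ≠ 0) :
    ((a : ℚ) / b).num ≠ 0 := by
  rw [Ne, Rat.num_eq_zero]
  exact div_ne_zero (Int.cast_ne_zero.2 ha) (Int.cast_ne_zero.2 hb)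

private theorem int2B_val (a b : ℤ) (ha : a ≠ 0) (hb : b ≠ 0) (q : ℕ) (hq : q.Prime) :
    padicValNat q ((a : ℚ) / b).num.natAbs =
      padicValNat q a.natAbs - padicValNat q b.natAbs := by
  have : Fact q.Prime := ⟨hq⟩
  have hm : ((a : ℚ) / b).num.natAbs ≠ 0 := Int.natAbs_ne_zero.2 (int2B_num_ne a b ha hb)
  have hd : ((a : ℚ) / b).den ≠ 0 := Rat.den_nz _
  have h1 := congrArg (padicValNat q) (int2B_num_mul a b hb)
  rw [padicValNat.mul hm (Int.natAbs_ne_zero.2 hb), padicValNat.mul (Int.natAbs_ne_zero.2 ha) hd]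
    at h1
  have h2 : padicValNat q ((a : ℚ) / b).num.natAbs = 0 ∨ padicValNat q ((a : ℚ) / b).den = 0 := by
    by_contra hcon
    rw [not_or] at hcon
    have h3 := (dvd_iff_padicValNat_ne_zero hm).2 hcon.1
    have h4 := (dvd_iff_padicValNat_ne_zero hd).2 hcon.2
    have h5 := Nat.dvd_gcd h3 h4
    rw [((a : ℚ) / b).reduced] at h5
    exact hq.one_lt.ne' (Nat.dvd_one.1 h5)
  omega

theorem ex_pair (P : Finset ℕ) (hp : ∀ q ∈ P, q.Prime) (a b : ℤ) (ha : a ≠ 0) (hb : b ≠ 0) :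
    ∑ q, (ex P a q - ex P b q) ≤ ((a : ℚ) / b).num.natAbs.primeFactorsList.length := by
  refine le_trans (le_of_eq ?_) (ex_sum P hp ((a : ℚ) / b).num (int2B_num_ne a b ha hb))
  refine Finset.sum_congr rfl fun q _ => ?_
  unfold ex
  exact (int2B_val a b ha hb q (hp q q.2)).symm

private theorem int2B_le (P : Finset ℕ) (a b : ℤ) (ha : a ≠ 0) (hb : b ≠ 0)
    (h1 : ((a : ℚ) / b).num.natAbs.primeFactors ⊆ P) (p : ℕ) (hpp : p.Prime) (hpP : p ∉ P) :
    padicValNat p a.natAbs ≤ padicValNat p b.natAbs := by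
  have : Fact p.Prime := ⟨hpp⟩
  have hm : ((a : ℚ) / b).num.natAbs ≠ 0 := Int.natAbs_ne_zero.2 (int2B_num_ne a b ha hb)
  have h2 : padicValNat p ((a : ℚ) / b).num.natAbs = 0 := by
    by_contra hcon
    exact hpP (h1 (Nat.mem_primeFactors.2 ⟨hpp, (dvd_iff_padicValNat_ne_zero hm).2 hcon, hm⟩))
  rw [int2B_val a b ha hb p hpp] at h2
  omega

theorem out_eq (P : Finset ℕ) (a b : ℤ) (ha : a ≠ 0) (hb : b ≠ 0)
    (h1 : ((a : ℚ) / b).num.natAbs.primeFactors ⊆ P)
    (h2 : ((b : ℚ) / a).num.natAbs.primeFactors ⊆ P) : out P a = out P b := by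
  have key : ∀ p : ℕ, p.Prime → p ∉ P → padicValNat p a.natAbs = padicValNat p b.natAbs :=
    fun p hpp hpP => le_antisymm (int2B_le P a b ha hb h1 p hpp hpP)
      (int2B_le P b a hb ha h2 p hpp hpP)
  have ha0 : a.natAbs ≠ 0 := Int.natAbs_ne_zero.2 ha
  have hb0 : b.natAbs ≠ 0 := Int.natAbs_ne_zero.2 hb
  unfold out
  have hset : a.natAbs.primeFactors.filter (fun p => p ∉ P) =
      b.natAbs.primeFactors.filter (fun p => p ∉ P) := by
    ext p
    rw [Finset.mem_filter, Finset.mem_filter, Nat.mem_primeFactors, Nat.mem_primeFactors]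
    constructor
    · rintro ⟨⟨hpp, hd, -⟩, hpP⟩
      have : Fact p.Prime := ⟨hpp⟩
      refine ⟨⟨hpp, ?_, hb0⟩, hpP⟩
      rw [dvd_iff_padicValNat_ne_zero hb0, ← key p hpp hpP]
      exact (dvd_iff_padicValNat_ne_zero ha0).1 hd
    · rintro ⟨⟨hpp, hd, -⟩, hpP⟩
      have : Fact p.Prime := ⟨hpp⟩
      refine ⟨⟨hpp, ?_, ha0⟩, hpP⟩
      rw [dvd_iff_padicValNat_ne_zero ha0, key p hpp hpP]
      exact (dvd_iff_padicValNat_ne_zero hb0).1 hd
  rw [hset]
  refine Finset.prod_congr rfl fun p hp => ?_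
  rw [Finset.mem_filter, Nat.mem_primeFactors] at hp
  rw [key p hp.1.1 hp.2]

theorem act_refl (P : Finset ℕ) (a : ℤ) (ha : a ≠ 0) : act P (Equiv.refl P) a = a := by
  unfold act
  have h1 : ∏ p ∈ a.natAbs.primeFactors,
      ((if h : p ∈ P then ((Equiv.refl P) ⟨p, h⟩ : ℕ) else p : ℕ) : ℤ) ^ padicValNat p a.natAbs =
      ((∏ p ∈ a.natAbs.primeFactors, p ^ a.natAbs.factorization p : ℕ) : ℤ) := by
    push_cast
    refine prod_congr rfl fun p hpm => ?_
    rw [Nat.factorization_def _ (Nat.prime_of_mem_primeFactors hpm)]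
    by_cases h : p ∈ P <;> simp [h]
  rw [h1]
  have h2 := Nat.prod_factorization_pow_eq_self (Int.natAbs_ne_zero.2 ha)
  rw [Finsupp.prod, Nat.support_factorization] at h2
  rw [h2]
  exact Int.sign_mul_natAbs a

theorem inj2 (P : Finset ℕ) (hp : ∀ q ∈ P, q.Prime) (a b : ℤ) (ha : a ≠ 0) (hb : b ≠ 0)
    (ho : out P a = out P b) (hs : a.sign = b.sign) (he : ex P a = ex P b) : a = b := by
  rw [← act_refl P a ha, ← act_refl P b hb, act_eq P hp, act_eq P hp, ho]
  congr 1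
  rw [rel_eq_val, rel_eq_val]
  unfold Pool.Agent.Helper88.GP.val
  rw [hs, he]

end Pool.Agent.Helper88.GQ
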