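import Pool.Agent.Helper88.GP.Big

set_option autoImplicit false

open Finset Pool.Agent.Helper88.GP

namespace Pool.Agent.Helper88.GQ

theorem mx_mul (k : ℕ) (g : ℤ) (hg : g ≠ 0) (S : Finset ℤ) :
    mx k (S.image fun x => g * x) = mx k S := by
  have hinj : Function.Injective fun x : ℤ => g * x := mul_right_injective₀ hg
  have hpi : (Fintype.piFinset fun _ : Fin k => S.image fun x => g * x) =
      (Fintype.piFinset fun _ : Fin k => S).image fun f i => g * f i := by
    ext f
    simp only [Fintype.mem_piFinset, mem_image]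
    constructor
    · intro h
      choose u hu hfu using h
      exact ⟨u, hu, funext hfu⟩
    · rintro ⟨u, hu, rfl⟩ i
      exact ⟨u i, hu i, rfl⟩
  unfold mx
  rw [hpi, image_image, image_image]
  have h1 : ((Fintype.piFinset fun _ : Fin k => S).image
      ((fun f : Fin k → ℤ => ∑ i, f i) ∘ fun f i => g * f i)).card =
      ((Fintype.piFinset fun _ : Fin k => S).image (fun f : Fin k → ℤ => ∑ i, f i)).card := by
    have : ((fun f : Fin k → ℤ => ∑ i, f i) ∘ fun (f : Fin k → ℤ) i => g * f i) =
        (fun x => g * x) ∘ (fun f : Fin k → ℤ => ∑ i, f i) := by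
      funext f; simp [mul_sum]
    rw [this, ← image_image, card_image_of_injective _ hinj]
  have h2 : ((Fintype.piFinset fun _ : Fin k => S).image
      ((fun f : Fin k → ℤ => ∏ i, f i) ∘ fun f i => g * f i)).card =
      ((Fintype.piFinset fun _ : Fin k => S).image (fun f : Fin k → ℤ => ∏ i, f i)).card := by
    have : ((fun f : Fin k → ℤ => ∏ i, f i) ∘ fun (f : Fin k → ℤ) i => g * f i) =
        (fun x => g ^ k * x) ∘ (fun f : Fin k → ℤ => ∏ i, f i) := by
      funext f; simp [prod_mul_distrib]
    rw [this, ← image_image, card_image_of_injective _ (mul_right_injective₀ (pow_ne_zero k hg))]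
  rw [h1, h2]

end Pool.Agent.Helper88.GQ
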