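import Mathlib

set_option autoImplicit false

/-!
# GQ-Num: choice of the parameters

`n ≤ y`, `2 ≤ y`, `1 ≤ L` and `L log y ≤ θ n log n` give `n ≥ 2`, `L ≤ θ n`, so `1 / n ≤ θ`; with
`x = log y / log n ≥ 1` take `M = ⌈x⌉₊ ≤ 2 x`, so `y ≤ n ^ M` and `M L ≤ 2 x L ≤ 2 θ n`. Hence
`√n ≤ n θ ^ (1 / 2)`, and `√n + (2 M (2 k L) + 2) ≤ n (θ ^ (1/2) + 8 k θ + 2 θ) ≤ (8 k + 3) n θ ^ (1/2)`.
Take `ρ = θ ^ (1 / 4)`: `2 (8 k + 3) θ ^ (1/2) ≤ θ ^ (1/4)` if `θ ≤ (16 k + 6) ^ (-4)`.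
`16 k (2 k L) ≤ 32 k ^ 2 θ n ≤ n` and `2 k ≤ n` if `θ ≤ 1 / (32 k ^ 2)`, `1 / (2 k)` (`k ≥ 1`; for
`k = 0` there is nothing to show). For the last inequality, with `d = ⌊c₁ / 2 * log b⌋₊`,
`d + 1 ≥ (c₁ / 2) log b`, so `ρ ^ ((d + 1) / 4 ^ k) ≤ θ ^ (c₁ log b / (8 * 4 ^ k))`, which is
`θ ^ (c₁ log b / (16 * 4 ^ k))` squared; one factor is `≤ θ ^ (c log b)` if `c ≤ c₁ / (16 * 4 ^ k)`,
the other one is `≤ 4 ^ (-k)` if `log (1 / c) ≥ 16 * 4 ^ k * k * log 4 / c₁` (as `log b ≥ 1`,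
`θ ≤ c`).
-/

namespace Pool.Agent.Helper88.GQ

theorem params2 (k : ℕ) (c₁ : ℝ) (hc₁ : 0 < c₁) : ∃ c : ℝ, 0 < c ∧ c ≤ 1 / 4 ^ k ∧ c ≤ 1 / 2 ∧
    ∀ (n y L : ℕ) (θ : ℝ), n ≤ y → 2 ≤ y → 1 ≤ L → 0 < θ → θ ≤ c →
      (L : ℝ) * Real.log y ≤ θ * (n * Real.log n) →
      ∃ (M : ℕ) (ρ : ℝ), 0 < ρ ∧ ρ ≤ 1 ∧ y ≤ n ^ M ∧ 16 * k * (2 * k * L) ≤ n ∧ 2 * k ≤ n ∧
        2 * ((Nat.sqrt n + (2 * M * (2 * k * L) + 2) : ℕ) : ℝ) ≤ ρ * n ∧
        ∀ b : ℝ, 1 ≤ Real.log b →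
          4 ^ k * ρ ^ (((⌊c₁ / 2 * Real.log b⌋₊ : ℝ) + 1) / 4 ^ k) ≤ θ ^ (c * Real.log b) := by
  have hK4 : (0 : ℝ) < 4 ^ k := by positivity
  obtain ⟨s₀, hs₀def⟩ : ∃ s : ℝ, s = c₁ / (16 * 4 ^ k) := ⟨_, rfl⟩
  have hs₀ : 0 < s₀ := by rw [hs₀def]; positivity
  obtain ⟨A, hAdef⟩ : ∃ A : ℝ, A = 16 * (k : ℝ) + 6 := ⟨_, rfl⟩
  have hk0 : (0 : ℝ) ≤ k := Nat.cast_nonneg k
  have hA : 6 ≤ A := by rw [hAdef]; linarith
  have hA4 : 0 < A ^ 4 := by positivity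
  obtain ⟨E, hEdef⟩ : ∃ E : ℝ, E = (1 / (4 : ℝ) ^ k) ^ (1 / s₀) := ⟨_, rfl⟩
  have hE : 0 < E := by rw [hEdef]; exact Real.rpow_pos_of_pos (by positivity) _
  obtain ⟨c, hcdef⟩ : ∃ c : ℝ, c = min (min (1 / (4 : ℝ) ^ k) (1 / 2))
      (min (min s₀ (1 / A ^ 4)) E) := ⟨_, rfl⟩
  have hc1 : c ≤ 1 / 4 ^ k := hcdef ▸ (min_le_left _ _).trans (min_le_left _ _)
  have hc2 : c ≤ 1 / 2 := hcdef ▸ (min_le_left _ _).trans (min_le_right _ _)
  have hc3 : c ≤ s₀ :=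
    hcdef ▸ (min_le_right _ _).trans ((min_le_left _ _).trans (min_le_left _ _))
  have hc4 : c ≤ 1 / A ^ 4 :=
    hcdef ▸ (min_le_right _ _).trans ((min_le_left _ _).trans (min_le_right _ _))
  have hc5 : c ≤ E := hcdef ▸ (min_le_right _ _).trans (min_le_right _ _)
  have hc0 : 0 < c := by
    rw [hcdef]
    exact lt_min (lt_min (by positivity) (by norm_num)) (lt_min (lt_min hs₀ (by positivity)) hE)
  refine ⟨c, hc0, hc1, hc2, ?_⟩
  intro n y L θ hny hy hL hθ hθc hLy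
  have hθ1 : θ ≤ 1 := by linarith
  have hlogy : 0 < Real.log y := Real.log_pos (by exact_mod_cast (by omega : 1 < y))
  have hLr : (1 : ℝ) ≤ L := by exact_mod_cast hL
  have hpos : 0 < (L : ℝ) * Real.log y := mul_pos (by linarith) hlogy
  have hn2 : 2 ≤ n := by
    by_contra hcon
    have hn : n = 0 ∨ n = 1 := by omega
    rcases hn with rfl | rfl
    · simp at hLy; linarith
    · simp at hLy; linarith
  have hnr : (2 : ℝ) ≤ n := by exact_mod_cast hn2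
  have hlogn : 0 < Real.log n := Real.log_pos (by linarith)
  have hlogny : Real.log n ≤ Real.log y :=
    Real.log_le_log (by linarith) (by exact_mod_cast hny)
  have hLn : (L : ℝ) ≤ θ * n := by
    have h : (L : ℝ) * Real.log n ≤ θ * n * Real.log n := by
      have := mul_le_mul_of_nonneg_left hlogny (by linarith : (0 : ℝ) ≤ L)
      nlinarith
    exact le_of_mul_le_mul_right h hlogn
  have h1n : 1 ≤ θ * n := hLr.trans hLn
  obtain ⟨x, hxdef⟩ : ∃ x : ℝ, x = Real.log y / Real.log n := ⟨_, rfl⟩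
  have hx1 : 1 ≤ x := by rw [hxdef, le_div_iff₀ hlogn]; simpa using hlogny
  have hxn : x * Real.log n = Real.log y := by rw [hxdef]; field_simp
  have hMx : x ≤ (⌈x⌉₊ : ℝ) := Nat.le_ceil x
  have hM2 : (⌈x⌉₊ : ℝ) ≤ 2 * x := by
    have := Nat.ceil_lt_add_one (by linarith : (0 : ℝ) ≤ x)
    linarith
  have hML : (⌈x⌉₊ : ℝ) * L ≤ 2 * (θ * n) := by
    have h1 : x * L ≤ θ * n := by
      have h : x * L * Real.log n ≤ θ * n * Real.log n := by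
        have : x * L * Real.log n = L * Real.log y := by rw [← hxn]; ring
        rw [this]; linarith
      exact le_of_mul_le_mul_right h hlogn
    have h2 := mul_le_mul_of_nonneg_right hM2 (by linarith : (0 : ℝ) ≤ L)
    nlinarith
  -- powers of `θ`
  obtain ⟨r, hrdef⟩ : ∃ r : ℝ, r = θ ^ (1 / 4 : ℝ) := ⟨_, rfl⟩
  have hr0 : 0 < r := by rw [hrdef]; exact Real.rpow_pos_of_pos hθ _
  have hr4 : r ^ 4 = θ := by
    rw [hrdef, ← Real.rpow_natCast, ← Real.rpow_mul hθ.le]; norm_num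
  have hrA : r ≤ 1 / A := by
    have h : r ^ 4 ≤ (1 / A) ^ 4 := by
      rw [hr4, one_div_pow]; linarith
    exact le_of_pow_le_pow_left₀ (by norm_num) (by positivity) h
  have hrA' : r * A ≤ 1 := by
    have := mul_le_mul_of_nonneg_right hrA (by linarith : (0 : ℝ) ≤ A)
    rwa [one_div, inv_mul_cancel₀ (by linarith)] at this
  have hr1 : r ≤ 1 := by nlinarith
  have hθA : θ * A ^ 4 ≤ 1 := by
    have := mul_le_mul_of_nonneg_right (hθc.trans hc4) hA4.le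
    rwa [one_div, inv_mul_cancel₀ hA4.ne'] at this
  refine ⟨⌈x⌉₊, r, hr0, hr1, ?_, ?_, ?_, ?_, ?_⟩
  · have h : (y : ℝ) ≤ (n : ℝ) ^ ⌈x⌉₊ := by
      rw [← Real.log_le_log_iff (by exact_mod_cast (by omega : 0 < y)) (by positivity),
        Real.log_pow, ← hxn]
      exact mul_le_mul_of_nonneg_right hMx hlogn.le
    exact_mod_cast h
  · have h : (16 * k * (2 * k * L) : ℝ) ≤ n := by
      have h1 : (16 * k * (2 * k * L) : ℝ) ≤ 32 * (k : ℝ) ^ 2 * (θ * n) := by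
        have := mul_le_mul_of_nonneg_left hLn (by positivity : (0 : ℝ) ≤ 32 * (k : ℝ) ^ 2)
        nlinarith
      have h2 : 32 * (k : ℝ) ^ 2 ≤ A ^ 4 := by
        have hA2 : 32 * (k : ℝ) ^ 2 ≤ A ^ 2 := by rw [hAdef]; nlinarith
        have hA3 : A ^ 2 ≤ A ^ 4 := pow_le_pow_right₀ (by linarith) (by norm_num)
        linarith
      have h3 : 32 * (k : ℝ) ^ 2 * θ ≤ 1 := by
        have := mul_le_mul_of_nonneg_right h2 hθ.le
        linarith
      have h4 := mul_le_mul_of_nonneg_right h3 (by linarith : (0 : ℝ) ≤ n)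
      linarith
    exact_mod_cast h
  · have h : (2 * k : ℝ) ≤ n := by
      have h2 : 2 * (k : ℝ) ≤ A ^ 4 := by
        have hA1 : 2 * (k : ℝ) ≤ A := by rw [hAdef]; linarith
        have hA3 : A ^ 1 ≤ A ^ 4 := pow_le_pow_right₀ (by linarith) (by norm_num)
        rw [pow_one] at hA3
        linarith
      have h3 : 2 * (k : ℝ) * θ ≤ 1 := by
        have := mul_le_mul_of_nonneg_right h2 hθ.le
        linarith
      have h4 := mul_le_mul_of_nonneg_right h3 (by linarith : (0 : ℝ) ≤ n)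
      have h5 := mul_le_mul_of_nonneg_left h1n (by linarith : (0 : ℝ) ≤ 2 * (k : ℝ))
      linarith
    exact_mod_cast h
  · -- the main inequality
    have hsq : (Nat.sqrt n : ℝ) ≤ r ^ 2 * n := by
      have h1 : (Nat.sqrt n : ℝ) ^ 2 ≤ (r ^ 2 * n) ^ 2 := by
        have h2 : (Nat.sqrt n : ℝ) ^ 2 ≤ n := by
          have := Nat.sqrt_le' n
          exact_mod_cast this
        have h3 : (r ^ 2 * n : ℝ) ^ 2 = θ * n * n := by
          rw [mul_pow, ← pow_mul, hr4]; ring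
        rw [h3]
        have := mul_le_mul_of_nonneg_right h1n (by linarith : (0 : ℝ) ≤ n)
        linarith
      exact le_of_pow_le_pow_left₀ (by norm_num) (by positivity) h1
    have hr24 : θ ≤ r ^ 2 := by
      rw [← hr4]
      exact pow_le_pow_of_le_one hr0.le hr1 (by norm_num)
    have hθn : θ * n ≤ r ^ 2 * n := mul_le_mul_of_nonneg_right hr24 (by linarith)
    push_cast
    have h5 : 2 * (⌈x⌉₊ : ℝ) * (2 * k * L) ≤ 8 * k * (r ^ 2 * n) := by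
      have h6 : 2 * (⌈x⌉₊ : ℝ) * (2 * k * L) = 4 * k * (⌈x⌉₊ * L) := by ring
      rw [h6]
      have h7 := mul_le_mul_of_nonneg_left (hML.trans
        (mul_le_mul_of_nonneg_left hθn (by norm_num : (0 : ℝ) ≤ 2)))
        (by positivity : (0 : ℝ) ≤ 4 * (k : ℝ))
      linarith
    have h8 : (2 : ℝ) ≤ 2 * (r ^ 2 * n) := by linarith
    have h9 : 2 * ((Nat.sqrt n : ℝ) + (2 * ⌈x⌉₊ * (2 * k * L) + 2)) ≤ A * (r ^ 2 * n) := by
      rw [hAdef]
      linarith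
    refine h9.trans ?_
    have h10 : A * (r ^ 2 * n) = (r * A) * (r * n) := by ring
    rw [h10]
    have := mul_le_mul_of_nonneg_right hrA' (by positivity : (0 : ℝ) ≤ r * n)
    linarith
  · intro b hb
    have hfl : c₁ / 2 * Real.log b ≤ (⌊c₁ / 2 * Real.log b⌋₊ : ℝ) + 1 :=
      (Nat.lt_floor_add_one _).le
    have h1 : r ^ (((⌊c₁ / 2 * Real.log b⌋₊ : ℝ) + 1) / 4 ^ k) ≤
        r ^ ((c₁ / 2 * Real.log b) / 4 ^ k) :=
      Real.rpow_le_rpow_of_exponent_ge hr0 hr1 (by gcongr)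
    have h2 : r ^ ((c₁ / 2 * Real.log b) / 4 ^ k) =
        θ ^ (s₀ * Real.log b) * θ ^ (s₀ * Real.log b) := by
      rw [hrdef, ← Real.rpow_mul hθ.le, ← Real.rpow_add hθ, hs₀def]
      congr 1
      field_simp
      ring
    have h3 : θ ^ (s₀ * Real.log b) ≤ θ ^ (c * Real.log b) :=
      Real.rpow_le_rpow_of_exponent_ge hθ hθ1
        (mul_le_mul_of_nonneg_right hc3 (by linarith))
    have h4 : θ ^ (s₀ * Real.log b) ≤ 1 / 4 ^ k := by
      calc θ ^ (s₀ * Real.log b) ≤ θ ^ s₀ :=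
            Real.rpow_le_rpow_of_exponent_ge hθ hθ1 (by nlinarith)
        _ ≤ E ^ s₀ := Real.rpow_le_rpow hθ.le (hθc.trans hc5) hs₀.le
        _ = 1 / 4 ^ k := by
            rw [hEdef, ← Real.rpow_mul (by positivity), one_div_mul_cancel hs₀.ne',
              Real.rpow_one]
    have h5 : 0 ≤ θ ^ (c * Real.log b) := Real.rpow_nonneg hθ.le _
    calc 4 ^ k * r ^ (((⌊c₁ / 2 * Real.log b⌋₊ : ℝ) + 1) / 4 ^ k)
        ≤ 4 ^ k * (θ ^ (s₀ * Real.log b) * θ ^ (s₀ * Real.log b)) := by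
          rw [← h2]; exact mul_le_mul_of_nonneg_left h1 hK4.le
      _ ≤ 4 ^ k * (1 / 4 ^ k * θ ^ (c * Real.log b)) := by
          apply mul_le_mul_of_nonneg_left _ hK4.le
          exact mul_le_mul h4 h3 (Real.rpow_nonneg hθ.le _) (by positivity)
      _ = θ ^ (c * Real.log b) := by field_simp

end Pool.Agent.Helper88.GQ
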