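import Pool.Agent.Helper88.GQ.Union2
import Pool.Agent.Helper88.GQ.Num2
import Pool.Agent.Helper88.GQ.Int2
import Pool.Agent.Helper88.GQ.Mul2
import Pool.Agent.Helper88.GP.Main

set_option autoImplicit false

/-!
# GQ-Main: assembly (owner: helper88)
-/

open Finset Pool.Agent.Helper88.GP

namespace Pool.Agent.Helper88.GQ

theorem card_le_two (P : Finset ℕ) (hp : ∀ q ∈ P, q.Prime) (A : Finset ℤ) (h0 : (0 : ℤ) ∉ A)
    (hout : ∀ a ∈ A, ∀ b ∈ A, out P a = out P b) (he : ∀ a ∈ A, ∀ b ∈ A, ex P a = ex P b) :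
    A.card ≤ 2 := by
  have h1 : A.card ≤ ({1, -1} : Finset ℤ).card := by
    refine card_le_card_of_injOn Int.sign ?_ ?_
    · intro a ha
      have hane : a ≠ 0 := fun h => h0 (h ▸ ha)
      rcases lt_or_gt_of_ne hane with h | h
      · rw [Int.sign_eq_neg_one_of_neg h]; simp
      · rw [Int.sign_eq_one_of_pos h]; simp
    · intro a ha b hb hab
      exact inj2 P hp a b (fun h => h0 (h ▸ ha)) (fun h => h0 (h ▸ hb)) (hout a ha b hb) hab
        (he a ha b hb)
  exact h1.trans (by decide)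

theorem gq (k : ℕ) (hk : 1 ≤ k) (ε : ℝ) (hε : 0 < ε) (hfew : ∃ c : ℝ, 0 < c ∧ FewH k ε c) :
    ∃ c : ℝ, 0 < c ∧ ∀ (y : ℕ) (P : Finset ℕ), (∀ q ∈ P, q.Prime ∧ q ≤ y) →
      ∀ (L : ℕ) (θ : ℝ), 0 < θ → θ ≤ c →
      (L : ℝ) * Real.log y ≤ θ * (P.card * Real.log P.card) →
      ∀ A : Finset ℤ, (0 : ℤ) ∉ A →
        (∀ a ∈ A, ∀ b ∈ A, ((a : ℚ) / b).num.natAbs.primeFactors ⊆ P ∧
          ((a : ℚ) / b).num.natAbs.primeFactorsList.length ≤ L) →
        ∀ b : ℝ, 1 ≤ b →
          (Nat.card {π : Equiv.Perm P // ∃ B ⊆ A, b ≤ B.card ∧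
            mx k (B.image (act P π)) < c * (B.card : ℝ) ^ ((k : ℝ) - ε)} : ℝ) ≤
          (A.card : ℝ) ^ (2 * k) * θ ^ (c * Real.log b) * (P.card.factorial : ℝ) := by
  classical
  obtain ⟨c₁, hc₁, hF⟩ := hfew
  obtain ⟨c₀, hc₀, hc₀4, hc₀2, hpar⟩ := params2 k c₁ hc₁
  have hk0 : (0 : ℝ) < k := by exact_mod_cast hk
  set c₃ : ℝ := min (1 / (2 * (k.factorial : ℝ)))
    (min (c₁ / (k : ℝ) ^ (2 * k)) (1 / (k : ℝ) ^ (4 * k))) with hc₃
  have hc₃0 : 0 < c₃ := by
    rw [hc₃]
    have : (0 : ℝ) < k.factorial := by exact_mod_cast k.factorial_pos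
    exact lt_min (by positivity) (lt_min (by positivity) (by positivity))
  refine ⟨min c₀ (min c₃ (1 / 2 ^ k)), lt_min hc₀ (lt_min hc₃0 (by positivity)), ?_⟩
  set c : ℝ := min c₀ (min c₃ (1 / 2 ^ k)) with hc
  have hcc₀ : c ≤ c₀ := min_le_left _ _
  have hcc₃ : c ≤ c₃ := (min_le_right _ _).trans (min_le_left _ _)
  have hccs : c ≤ 1 / 2 ^ k := (min_le_right _ _).trans (min_le_right _ _)
  clear_value c c₃
  intro y P hP L θ hθ hθc hLy A h0 hA b hb
  have hpP : ∀ q ∈ P, q.Prime := fun q hq => (hP q hq).1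
  have hne : ∀ a ∈ A, a ≠ 0 := fun a ha h => h0 (h ▸ ha)
  have hθ1 : θ ≤ 1 := by linarith
  have hRHS : (0 : ℝ) ≤ (A.card : ℝ) ^ (2 * k) * θ ^ (c * Real.log b) * (P.card.factorial : ℝ) := by
    positivity
  -- a bad set has at least three elements
  have hthree : ∀ (π : Equiv.Perm P) (B : Finset ℤ), b ≤ B.card →
      mx k (B.image (act P π)) < c * (B.card : ℝ) ^ ((k : ℝ) - ε) → 3 ≤ B.card := by
    intro π B hbB hlt
    by_contra hB2
    have hB1 : 1 ≤ B.card := by
      have : (1 : ℝ) ≤ B.card := hb.trans hbB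
      exact_mod_cast this
    have h3 := small_sets (k := k) hε hccs (A := B.image (act P π))
      ((card_pos.1 (by omega : 0 < B.card)).image _) (by omega : B.card ≤ 2) hB1
    linarith
  by_cases hcard : A.card ≤ 2
  · have hempty : IsEmpty {π : Equiv.Perm P // ∃ B ⊆ A, b ≤ B.card ∧
            mx k (B.image (act P π)) < c * (B.card : ℝ) ^ ((k : ℝ) - ε)} := by
      refine ⟨fun ⟨π, B, hBA, hBb, hlt⟩ => ?_⟩
      have h3 := hthree π B hBb hlt
      have h4 := card_le_card hBA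
      omega
    rw [Nat.card_eq_zero.2 (Or.inl hempty)]
    simpa using hRHS
  rw [not_le] at hcard
  have hout : ∀ a ∈ A, ∀ b ∈ A, out P a = out P b := fun a ha b hb =>
    out_eq P a b (hne a ha) (hne b hb) (hA a ha b hb).1 (hA b hb a ha).1
  have hpair : ∀ x ∈ A, ∀ z ∈ A, ∑ q, (ex P x q - ex P z q) ≤ L := fun x hx z hz =>
    (ex_pair P hpP x z (hne x hx) (hne z hz)).trans (hA x hx z hz).2
  have hL1 : 1 ≤ L := by
    by_contra hL0
    have hL0' : L = 0 := by omega
    have hle : ∀ x ∈ A, ∀ z ∈ A, ∀ q, ex P x q ≤ ex P z q := by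
      intro x hx z hz q
      have h1 := hpair x hx z hz
      rw [hL0', Nat.le_zero, sum_eq_zero_iff] at h1
      have := h1 q (mem_univ q)
      omega
    have := card_le_two P hpP A h0 hout fun a ha b hb =>
      funext fun q => le_antisymm (hle a ha b hb q) (hle b hb a ha q)
    omega
  have hPne : P.Nonempty := by
    by_contra hP0
    rw [not_nonempty_iff_eq_empty] at hP0
    subst hP0
    have := card_le_two ∅ hpP A h0 hout fun a _ b _ => funext fun q => absurd q.2 (notMem_empty _)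
    omega
  have hy2 : 2 ≤ y := by
    obtain ⟨q, hq⟩ := hPne
    exact (hP q hq).1.two_le.trans (hP q hq).2
  have hny : P.card ≤ y := by
    have h1 : P ⊆ Icc 1 y := fun q hq => mem_Icc.2 ⟨(hP q hq).1.one_le, (hP q hq).2⟩
    simpa using card_le_card h1
  obtain ⟨M, ρ, hρ, hρ1, hyM, h16, h2k, hW, hN⟩ := hpar P.card y L θ hny hy2 hL1 hθ
    (hθc.trans hcc₀) hLy
  -- the threshold may be taken to be at least `e`
  set b' : ℝ := max b (Real.exp 1) with hb'
  have hb'1 : 1 ≤ Real.log b' := by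
    rw [Real.le_log_iff_exp_le (lt_of_lt_of_le (Real.exp_pos 1) (le_max_right _ _))]
    exact le_max_right _ _
  have hN' := hN b' hb'1
  set d : ℕ := ⌊c₁ / 2 * Real.log b'⌋₊ with hd
  have hsgn : ∀ x ∈ A, |Int.sign x| = 1 := by
    intro x hx
    rcases lt_or_gt_of_ne (hne x hx) with h | h
    · rw [Int.sign_eq_neg_one_of_neg h]; rfl
    · rw [Int.sign_eq_one_of_pos h]; rfl
  have hcount := good_count2 k M L d hk hpP (fun q hq => (hP q hq).2.trans hyM) h16 h2k Int.sign
    (ex P) A (fun x hx => (hsgn x hx).le) hpair ρ hρ hρ1 hW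
  obtain ⟨a₀, ha₀⟩ : A.Nonempty := card_pos.1 (by omega)
  -- bad permutations are not good
  have hbad : (Nat.card {π : Equiv.Perm P // ∃ B ⊆ A, b ≤ B.card ∧
            mx k (B.image (act P π)) < c * (B.card : ℝ) ^ ((k : ℝ) - ε)} : ℝ) ≤
      ((univ.filter fun π : Equiv.Perm P => ¬ Good Int.sign (ex P) A k d π).card : ℝ) := by
    rw [Nat.card_eq_fintype_card, Fintype.card_subtype]
    have : (univ.filter fun π : Equiv.Perm P => ∃ B ⊆ A, b ≤ B.card ∧
        mx k (B.image (act P π)) < c * (B.card : ℝ) ^ ((k : ℝ) - ε)) ⊆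
        (univ.filter fun π : Equiv.Perm P => ¬ Good Int.sign (ex P) A k d π) := by
      intro π hπ
      simp only [mem_filter, mem_univ, true_and] at hπ ⊢
      obtain ⟨B, hBA, hBb, hlt⟩ := hπ
      intro hgood
      have hB3 := hthree π B hBb hlt
      have hB : B.Nonempty := card_pos.1 (by omega)
      have hBpos : (0 : ℝ) < B.card := by exact_mod_cast card_pos.2 hB
      have hb'B : b' ≤ B.card := by
        refine max_le hBb ?_
        have h3 : (3 : ℝ) ≤ B.card := by exact_mod_cast hB3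
        have := Real.exp_one_lt_d9
        linarith
      have hb'0 : 0 < b' := lt_of_lt_of_le (Real.exp_pos 1) (le_max_right _ _)
      have hdle : (d : ℝ) ≤ c₁ / 2 * Real.log B.card := by
        have h1 : (d : ℝ) ≤ c₁ / 2 * Real.log b' := Nat.floor_le (by positivity)
        exact h1.trans (mul_le_mul_of_nonneg_left (Real.log_le_log hb'0 hb'B) (by positivity))
      have hinj : ∀ x ∈ A, ∀ y ∈ A, Int.sign x = Int.sign y → ex P x = ex P y → x = y :=
        fun x hx y hy hs he => inj2 P hpP x y (hne x hx) (hne y hy) (hout x hx y hy) hs he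
      have hmain := big_of_good k d hk ε c₁ hε hc₁ hF hpP Int.sign (ex P) A hsgn hinj π hgood B
        hBA hB hdle
      have himg : B.image (act P π) =
          (B.image (val Int.sign (ex P) π)).image (fun x => out P a₀ * x) := by
        rw [image_image]
        refine image_congr fun x hx => ?_
        rw [act_eq P hpP, Function.comp_apply, hout x (hBA hx) a₀ ha₀, rel_eq_val]
      rw [himg, mx_mul k _ (out_ne_zero P a₀)] at hlt
      rw [← hc₃] at hmain
      have h4 : c * (B.card : ℝ) ^ ((k : ℝ) - ε) ≤ c₃ * (B.card : ℝ) ^ ((k : ℝ) - ε) :=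
        mul_le_mul_of_nonneg_right hcc₃ (Real.rpow_nonneg hBpos.le _)
      linarith
    exact_mod_cast card_le_card this
  have hfac : (0 : ℝ) ≤ (P.card.factorial : ℝ) := by positivity
  have hlogb : Real.log b ≤ Real.log b' := Real.log_le_log (by linarith) (le_max_left _ _)
  have hlogb0 : 0 ≤ Real.log b := Real.log_nonneg hb
  have hc0 : 0 < c := lt_of_lt_of_le hθ hθc
  have hexp : θ ^ (c₀ * Real.log b') ≤ θ ^ (c * Real.log b) := by
    refine Real.rpow_le_rpow_of_exponent_ge hθ hθ1 ?_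
    exact mul_le_mul hcc₀ hlogb hlogb0 hc₀.le
  calc _ ≤ ((univ.filter fun π : Equiv.Perm P => ¬ Good Int.sign (ex P) A k d π).card : ℝ) := hbad
    _ ≤ (A.card : ℝ) ^ (2 * k) * 4 ^ k * ρ ^ (((d : ℝ) + 1) / 4 ^ k) *
        (P.card.factorial : ℝ) := hcount
    _ = (A.card : ℝ) ^ (2 * k) * (4 ^ k * ρ ^ (((d : ℝ) + 1) / 4 ^ k)) *
        (P.card.factorial : ℝ) := by ring
    _ ≤ (A.card : ℝ) ^ (2 * k) * θ ^ (c * Real.log b) * (P.card.factorial : ℝ) := by
        refine mul_le_mul_of_nonneg_right ?_ hfac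
        exact mul_le_mul_of_nonneg_left (hN'.trans hexp) (by positivity)

end Pool.Agent.Helper88.GQ
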