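import Pool.Agent.Helper88.GP.Big

set_option autoImplicit false

/-!
# GQ-Spread: good permutations, sets without large balls: sums alone
-/

open Finset Pool.Agent.Helper88.GP

namespace Pool.Agent.Helper88.GQ

variable {X : Type*} [DecidableEq X] {P : Finset ℕ}

theorem sums_of_spread (k d : ℕ) (hk : 1 ≤ k) (hp : ∀ q ∈ P, q.Prime) (s : X → ℤ) (e : X → P → ℕ)
    (A : Finset X) (hs : ∀ x ∈ A, |s x| = 1)
    (hinj : ∀ x ∈ A, ∀ y ∈ A, s x = s y → e x = e y → x = y)
    (π : Equiv.Perm P) (hg : Good s e A k d π) (B : Finset X) (hBA : B ⊆ A)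
    (hball : ∀ a ∈ B, k ^ 2 * (B.filter fun b => ham e a b ≤ d).card ≤ B.card) :
    B.card ^ k ≤ 2 * (k.factorial *
      ((Fintype.piFinset (fun _ : Fin k => B.image (val s e π))).image
        (fun f : Fin k → ℤ => ∑ i, f i)).card) := by
  have h0 : ∀ x ∈ A, val s e π x ≠ 0 := fun x hx => val_ne_zero hp s e π x (hs x hx)
  have hvi : ∀ x ∈ A, ∀ y ∈ A, val s e π x = val s e π y → x = y := fun x hx y hy h =>
    hinj x hx y hy (val_inj hp s e π x y (hs x hx) (hs y hy) h).1
      (val_inj hp s e π x y (hs x hx) (hs y hy) h).2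
  have h1 := far_card e B k d hk hball
  set F := (Fintype.piFinset fun _ : Fin k => B).filter
    (fun u : Fin k → X => ∀ i j, i ≠ j → d < ham e (u i) (u j)) with hFdef
  have hmem : ∀ u ∈ F, (∀ i, u i ∈ B) ∧ ∀ i j, i ≠ j → d < ham e (u i) (u j) := by
    intro u hu
    rw [hFdef, mem_filter, Fintype.mem_piFinset] at hu
    exact hu
  have h2 := sums_card k F (val s e π) (fun u hu i j hij => by
    by_contra hne
    have := (hmem u hu).2 i j hne
    rw [hij] at this
    simp [ham] at this) (fun u hu v hv h =>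
      far_inj s e A k d π hg h0 hvi u v (fun i => hBA ((hmem u hu).1 i))
        (fun i => hBA ((hmem v hv).1 i)) (hmem u hu).2 (hmem v hv).2 h)
  have h3 : F.image (fun u => ∑ i, val s e π (u i)) ⊆
      (Fintype.piFinset (fun _ : Fin k => B.image (val s e π))).image
        (fun f : Fin k → ℤ => ∑ i, f i) := by
    intro z hz
    obtain ⟨u, hu, rfl⟩ := mem_image.1 hz
    refine mem_image.2 ⟨fun i => val s e π (u i), ?_, rfl⟩
    rw [Fintype.mem_piFinset]
    exact fun i => mem_image_of_mem _ ((hmem u hu).1 i)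
  exact h1.trans (Nat.mul_le_mul_left _ (h2.trans (Nat.mul_le_mul_left _ (card_le_card h3))))

theorem sum_mul (k : ℕ) (g : ℤ) (hg : g ≠ 0) (S : Finset ℤ) :
    ((Fintype.piFinset (fun _ : Fin k => S.image fun x => g * x)).image
      (fun f : Fin k → ℤ => ∑ i, f i)).card =
    ((Fintype.piFinset (fun _ : Fin k => S)).image (fun f : Fin k → ℤ => ∑ i, f i)).card := by
  have hinj : Function.Injective fun x : ℤ => g * x := mul_right_injective₀ hg
  have hpi : (Fintype.piFinset fun _ : Fin k => S.image fun x => g * x) =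
      (Fintype.piFinset fun _ : Fin k => S).image fun f i => g * f i := by
    ext f
    simp only [Fintype.mem_piFinset, mem_image]
    constructor
    · intro h
      choose u hu hfu using h
      exact ⟨u, hu, funext hfu⟩
    · rintro ⟨u, hu, rfl⟩ i
      exact ⟨u i, hu i, rfl⟩
  rw [hpi, image_image]
  have : ((fun f : Fin k → ℤ => ∑ i, f i) ∘ fun (f : Fin k → ℤ) i => g * f i) =
      (fun x => g * x) ∘ (fun f : Fin k → ℤ => ∑ i, f i) := by
    funext f; simp [mul_sum]
  rw [this, ← image_image, card_image_of_injective _ hinj]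

end Pool.Agent.Helper88.GQ
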