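import Pool.Agent.Helper88.GP.Rel

set_option autoImplicit false

/-!
# GQ-Rel: `rel_count` when only the pairwise quotients are short

From `GP.rel_count`. If `R = ∅` then `MinRel` is false and `supp e R = ∅` (take `r = 0`). Otherwise
let `mn q = R.inf' _ (fun z => e z q)` and `e' x q = e x q - mn q` (natural subtraction). For
`x ∈ R`: `e x q = mn q + e' x q`, and `∑ q, e' x q ≤ ∑ z ∈ R, ∑ q, (e x q - e z q) ≤ |R| L ≤ 2 k L`
(the infimum is attained at some `z ∈ R`). Hence `val s e π x = (∏ q, (π q) ^ mn q) * val s e' π x`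
on `R`, the factor being a non-zero integer, so `MinRel s e π m R ↔ MinRel s e' π m R`;
`supp e R = supp e' R`. Apply `GP.rel_count k M (2 * k * L)` to `e'`. (`GP.rel_count` wants its
hypothesis `hL` on `R` only.)
-/

open Finset Pool.Agent.Helper88.GP

namespace Pool.Agent.Helper88.GQ

variable {X : Type*} [DecidableEq X] {P : Finset ℕ}

omit [DecidableEq X] in
/-- the least exponent at `q` -/
theorem Rel2_le (e : X → P → ℕ) (R : Finset X) (hR : R.Nonempty) (x : X) (hx : x ∈ R) (q : P) :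
    R.inf' hR (fun z => e z q) ≤ e x q :=
  Finset.inf'_le (fun z => e z q) hx

omit [DecidableEq X] in
theorem Rel2_sum (k L : ℕ) (e : X → P → ℕ) (R : Finset X) (hR : R.Nonempty)
    (hRc : R.card ≤ 2 * k) (hL : ∀ x ∈ R, ∀ z ∈ R, ∑ q, (e x q - e z q) ≤ L) (x : X)
    (hx : x ∈ R) : ∑ q, (e x q - R.inf' hR (fun z => e z q)) ≤ 2 * k * L := by
  have h1 : ∀ q : P, e x q - R.inf' hR (fun z => e z q) ≤ ∑ z ∈ R, (e x q - e z q) := by
    intro q
    obtain ⟨z, hz, hz2⟩ := Finset.exists_mem_eq_inf' hR (fun z => e z q)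
    rw [hz2]
    exact Finset.single_le_sum (f := fun z => e x q - e z q) (fun _ _ => Nat.zero_le _) hz
  calc ∑ q, (e x q - R.inf' hR (fun z => e z q))
      ≤ ∑ q, ∑ z ∈ R, (e x q - e z q) := Finset.sum_le_sum fun q _ => h1 q
    _ = ∑ z ∈ R, ∑ q, (e x q - e z q) := Finset.sum_comm
    _ ≤ ∑ _z ∈ R, L := Finset.sum_le_sum fun z hz => hL x hx z hz
    _ = R.card * L := by rw [Finset.sum_const, smul_eq_mul]
    _ ≤ 2 * k * L := Nat.mul_le_mul_right L hRc

omit [DecidableEq X] in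
theorem Rel2_val (s : X → ℤ) (e : X → P → ℕ) (R : Finset X) (hR : R.Nonempty)
    (π : Equiv.Perm P) (x : X) (hx : x ∈ R) :
    val s e π x = (∏ q : P, ((π q : ℕ) : ℤ) ^ (R.inf' hR (fun z => e z q))) *
      val s (fun x q => e x q - R.inf' hR (fun z => e z q)) π x := by
  have h1 : ∏ q : P, ((π q : ℕ) : ℤ) ^ e x q =
      (∏ q : P, ((π q : ℕ) : ℤ) ^ (R.inf' hR (fun z => e z q))) *
        ∏ q : P, ((π q : ℕ) : ℤ) ^ (e x q - R.inf' hR (fun z => e z q)) := by
    rw [← Finset.prod_mul_distrib]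
    refine Finset.prod_congr rfl fun q _ => ?_
    rw [← pow_add, Nat.add_sub_cancel' (Rel2_le e R hR x hx q)]
  unfold Pool.Agent.Helper88.GP.val
  rw [h1]
  ring

omit [DecidableEq X] in
theorem Rel2_minRel (hp : ∀ q ∈ P, q.Prime) (s : X → ℤ) (e : X → P → ℕ) (m : X → ℤ)
    (R : Finset X) (hR : R.Nonempty) (π : Equiv.Perm P) :
    MinRel s e π m R ↔ MinRel s (fun x q => e x q - R.inf' hR (fun z => e z q)) π m R := by
  set D : ℤ := ∏ q : P, ((π q : ℕ) : ℤ) ^ (R.inf' hR (fun z => e z q)) with hD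
  have hD0 : D ≠ 0 := Finset.prod_ne_zero_iff.2 fun q _ =>
    pow_ne_zero _ (Int.natCast_ne_zero.2 (hp _ (π q).2).ne_zero)
  have hsum : ∀ S ⊆ R, ∑ x ∈ S, m x * val s e π x =
      D * ∑ x ∈ S, m x * val s (fun x q => e x q - R.inf' hR (fun z => e z q)) π x := by
    intro S hS
    rw [Finset.mul_sum]
    refine Finset.sum_congr rfl fun x hx => ?_
    rw [Rel2_val s e R hR π x (hS hx)]
    ring
  have hz : ∀ S ⊆ R, (∑ x ∈ S, m x * val s e π x = 0 ↔
      ∑ x ∈ S, m x * val s (fun x q => e x q - R.inf' hR (fun z => e z q)) π x = 0) := by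
    intro S hS
    rw [hsum S hS, mul_eq_zero]
    exact ⟨fun h => h.resolve_left hD0, fun h => Or.inr h⟩
  constructor
  · rintro ⟨h1, h2, h3⟩
    exact ⟨h1, (hz R (Finset.Subset.refl R)).1 h2,
      fun S hS hSn hSR h => h3 S hS hSn hSR ((hz S hS).2 h)⟩
  · rintro ⟨h1, h2, h3⟩
    exact ⟨h1, (hz R (Finset.Subset.refl R)).2 h2,
      fun S hS hSn hSR h => h3 S hS hSn hSR ((hz S hS).1 h)⟩

omit [DecidableEq X] in
theorem Rel2_supp (e : X → P → ℕ) (R : Finset X) (hR : R.Nonempty) :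
    supp e R = supp (fun x q => e x q - R.inf' hR (fun z => e z q)) R := by
  unfold supp
  refine Finset.filter_congr fun q _ => ?_
  constructor
  · rintro ⟨x, hx, y, hy, h⟩
    refine ⟨x, hx, y, hy, fun h2 => h ?_⟩
    have h3 := Rel2_le e R hR x hx q
    have h4 := Rel2_le e R hR y hy q
    dsimp only at h2
    omega
  · rintro ⟨x, hx, y, hy, h⟩
    refine ⟨x, hx, y, hy, fun h2 => h ?_⟩
    dsimp only
    rw [h2]

open Classical in
theorem rel_count2 (k M L : ℕ) (hk : 1 ≤ k) (hp : ∀ q ∈ P, q.Prime) (hM : ∀ q ∈ P, q ≤ P.card ^ M)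
    (hLP : 16 * k * (2 * k * L) ≤ P.card) (hkP : 2 * k ≤ P.card) (s : X → ℤ) (e : X → P → ℕ)
    (m : X → ℤ) (R : Finset X) (hRc : R.card ≤ 2 * k) (hs : ∀ x ∈ R, |s x| ≤ 1)
    (hL : ∀ x ∈ R, ∀ z ∈ R, ∑ q, (e x q - e z q) ≤ L)
    (hm : ∑ x ∈ R, |m x| ≤ ((2 * k : ℕ) : ℤ)) :
    ∃ r : ℕ, (supp e R).card ≤ 4 ^ k * r ∧
      ((univ.filter fun π : Equiv.Perm P => MinRel s e π m R).card : ℝ) * ((P.card : ℝ) / 2) ^ r ≤
        ((Nat.sqrt P.card + (2 * M * (2 * k * L) + 2) : ℕ) : ℝ) ^ r * (P.card.factorial : ℝ) := by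
  rcases R.eq_empty_or_nonempty with hR | hR
  · subst hR
    refine ⟨0, ?_, ?_⟩
    · simp [supp]
    · have h0 : (univ.filter fun π : Equiv.Perm P => MinRel s e π m ∅) = ∅ := by
        refine Finset.filter_eq_empty_iff.2 fun π _ h => ?_
        exact Finset.not_nonempty_empty h.1
      rw [h0]
      simp
  · obtain ⟨r, h1, h2⟩ := rel_count k M (2 * k * L) hk hp hM hLP hkP s
      (fun x q => e x q - R.inf' hR (fun z => e z q)) m R hRc hs
      (fun x hx => Rel2_sum k L e R hR hRc hL x hx) hm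
    refine ⟨r, ?_, ?_⟩
    · rw [Rel2_supp e R hR]
      exact h1
    · have h3 : (univ.filter fun π : Equiv.Perm P => MinRel s e π m R) =
          univ.filter fun π : Equiv.Perm P =>
            MinRel s (fun x q => e x q - R.inf' hR (fun z => e z q)) π m R :=
        Finset.filter_congr fun π _ => Rel2_minRel hp s e m R hR π
      rw [h3]
      exact h2

end Pool.Agent.Helper88.GQ
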